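import Pool.Agent.H94.SccA

/-!
# A uniform bound in terms of `d_1` for the fundamental group of an arbitrary space

Let `X` be a topological space with base point `x` and let `simpleLoops X x` be the set of the
elements of `π₁(X, x)` whose conjugacy class is represented by a simple closed curve. If `k`
elements of this set generate `π₁(X, x)` then `d_n ≤ d_1 + 2 k` for all `n ≥ 1`. Hence `(d_n)` is
bounded if and only if `d_1` is finite.
-/

namespace Pool.Agent.Results.MP_038aca_al.AllSurfaces

open H94Simple

universe u

/-- `d_n ≤ d_1 + 2 k` if `k` simple closed curves generate the fundamental group. -/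
theorem result : ∀ (X : Type u) [TopologicalSpace X] (x : X) (S : Finset (FundamentalGroup X x)),
    (∀ s ∈ S, s ∈ simpleLoops X x) →
    Subgroup.closure (S : Set (FundamentalGroup X x)) = ⊤ →
    ∀ n : ℕ, 1 ≤ n → dia (simpleLoops X x) n ≤ dia (simpleLoops X x) 1 + 2 * S.card :=
  fun _ _ _ S hS hgen _ hn => abstract_bound simpleLoops_conj S hS hgen hn

end Pool.Agent.Results.MP_038aca_al.AllSurfaces
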