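import Pool.Agent.H94.SccZc
import Pool.Agent.H94.SnZ

/-!
# The limit of the simple-curve diameters for all surfaces of finite type

Orientable surfaces of genus `g` with `b` punctures:

* `g ≥ 1`, `b ≥ 1`: `d_n = 2 g + b` for all large `n`;
* `g ≥ 2`, `b = 0`: `d_n = 2 g + 1` for all large `n`;
* the torus: `d_n = 2` for all `n ≥ 1`;
* `g = 0`, `b ≥ 2`: `d_n = ∞` for all `n ≥ 1`;
* `g = 0`, `b ≤ 1`: `d_n = 0`.

For `g ≥ 1` moreover `2 ≤ d_n ≤ 2 g + 1 + (b - 1)` for every `n ≥ 1` (truncated subtraction).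

Non-orientable surfaces with `h` crosscaps and `b` punctures:

* `h ≥ 3`, `b ≥ 1`: `d_n = h + b` for all large `n`;
* `h ≥ 3`, `b = 0`: `d_n = h + 1` for all large `n`;
* `h = 2`, or `h = 1` and `b ≥ 1`: `d_n = ∞` for all `n ≥ 1`;
* the projective plane: `d_n = 1` for all `n ≥ 1`.

For `h ≥ 3` moreover `d_n ≤ h + max b 1` for every `n ≥ 1`.
-/

namespace Pool.Agent.Results.MP_038aca_al.FullLimit

open H94Simple

/-- The limit of `(d_n)` for every surface of finite type. -/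
theorem result :
    (∀ g b : ℕ,
      (1 ≤ g → 1 ≤ b →
        ∃ n0, ∀ n, n0 ≤ n → dia (simple g b) n = ((2 * g + b : ℕ) : ℕ∞)) ∧
      (2 ≤ g → b = 0 →
        ∃ n0, ∀ n, n0 ≤ n → dia (simple g b) n = ((2 * g + 1 : ℕ) : ℕ∞)) ∧
      (g = 1 → b = 0 → ∀ n, 1 ≤ n → dia (simple g b) n = 2) ∧
      (g = 0 → 2 ≤ b → ∀ n, 1 ≤ n → dia (simple g b) n = ⊤) ∧
      (g = 0 → b ≤ 1 → ∀ n, dia (simple g b) n = 0) ∧
      (1 ≤ g → ∀ n, 1 ≤ n → 2 ≤ dia (simple g b) n ∧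
        dia (simple g b) n ≤ ((2 * g + 1 + (b - 1) : ℕ) : ℕ∞))) ∧
    (∀ h b : ℕ,
      (3 ≤ h → 1 ≤ b →
        ∃ n0, ∀ n, n0 ≤ n → dia (simpleN h b) n = ((h + b : ℕ) : ℕ∞)) ∧
      (3 ≤ h → b = 0 →
        ∃ n0, ∀ n, n0 ≤ n → dia (simpleN h b) n = ((h + 1 : ℕ) : ℕ∞)) ∧
      (3 ≤ h → ∀ n, 1 ≤ n → dia (simpleN h b) n ≤ ((h + max b 1 : ℕ) : ℕ∞)) ∧
      (h = 2 → ∀ n, 1 ≤ n → dia (simpleN h b) n = ⊤) ∧
      (h = 1 → 1 ≤ b → ∀ n, 1 ≤ n → dia (simpleN h b) n = ⊤) ∧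
      (h = 1 → b = 0 → ∀ n, 1 ≤ n → dia (simpleN h b) n = 1)) := by
  refine ⟨fun g b => ⟨?_, ?_, ?_, ?_, ?_, ?_⟩, fun h b => ⟨?_, ?_, ?_, ?_, ?_, ?_⟩⟩
  · intro hg hb
    obtain ⟨b, rfl⟩ := Nat.exists_eq_add_of_le' hb
    exact exact_limit g b hg
  · rintro hg rfl
    exact exact_limitC g hg
  · rintro rfl rfl n hn
    exact torus n hn
  · rintro rfl hb n hn
    exact planar b n hb hn
  · rintro rfl hb n
    exact dia_trivial hb n
  · intro hg n hn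
    exact ⟨two_le g b n hg hn, surface_bound' g b n hg⟩
  · intro hh hb
    obtain ⟨b, rfl⟩ := Nat.exists_eq_add_of_le' hb
    obtain ⟨k, rfl⟩ := Nat.exists_eq_add_of_le' hh
    exact limitN k b
  · rintro hh rfl
    obtain ⟨k, rfl⟩ := Nat.exists_eq_add_of_le' hh
    exact limitNC k
  · intro hh n hn
    obtain ⟨k, rfl⟩ := Nat.exists_eq_add_of_le' hh
    rcases Nat.eq_zero_or_pos b with rfl | hb
    · exact upperN_closed k n hn
    · obtain ⟨b, rfl⟩ := Nat.exists_eq_add_of_le' hb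
      have := upperN_punctured k b n hn
      rw [max_eq_left (by omega)]
      exact this
  · rintro rfl n hn
    exact genus_two b hn
  · rintro rfl hb n hn
    obtain ⟨b, rfl⟩ := Nat.exists_eq_add_of_le' hb
    exact genus_one b hn
  · rintro rfl rfl n hn
    exact proj_plane hn

end Pool.Agent.Results.MP_038aca_al.FullLimit
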