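import Pool.Agent.H94.SccJ

/-!
# Simple-curve diameters for the once-punctured torus

`Surf g b` is the fundamental group of the orientable surface of genus `g` with `b` punctures,
`simple g b` the set of its elements represented by simple closed curves and `dia (simple g b) n`
the diameter `d_n` of `L_n = π / π_n` with respect to the image of this set.

For the once-punctured torus (`π` free of rank two) `d_n = 3` for all `n ≥ 4`, so the nondecreasing
sequence `(d_n)` is bounded and its limit is `3`.

Upper bound: in a nilpotent group generated by `x_1, …, x_k` every element congruent to
`x_1 ⋯ x_k` modulo commutators is a product of conjugates of `x_1, …, x_k` in this order, and every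
vector of `ℤ²` is the sum of the classes of three simple closed curves which generate `ℤ²`.

Lower bound: `h = [[a,b],a] [[[a,b],b],b]` is not a product of two simple elements modulo `π_4`.
After a geometric automorphism the first factor is `a^{±1}`; in the representation
`a ↦ (x ↦ x + 1)`, `b ↦ (x ↦ T x)` over `ℤ⟦X⟧`, `T = 1 + X`, a simple element homologous to
`a^{±1}` acts as `x ↦ x ± T^i`, because the commutator of it and its partner is conjugate to
`[a,b]^{±1}`. So the product of two simple elements which lies in `π_2` acts trivially, and
`h` does not, for every choice of the automorphism.
-/

namespace Pool.Agent.Results.MP_038aca_al.PuncturedTorus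

open H94Simple

/-- For the once-punctured torus `d_n = 3` for every `n ≥ 4`. -/
theorem result : ∀ n : ℕ, 4 ≤ n → dia (simple 1 1) n = 3 :=
  fun n hn => punctured_torus n hn

end Pool.Agent.Results.MP_038aca_al.PuncturedTorus
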